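import Pool.Agent.Q37.WP.Graph

/-! # `I²` Cohen–Macaulay and `I⁴` unmixed do not imply `I⁴` Cohen–Macaulay -/

set_option autoImplicit false

namespace Pool.Agent.Results.MP_23c7c4_al.SquareCMUnmixedNotCM

open Q37.WP Q37.TW

/-- Over every field there is a very well-covered weighted graph whose weighted edge ideal `I` has
`I²` Cohen–Macaulay and `I⁴` unmixed but not Cohen–Macaulay. -/
theorem result (K : Type) [Field K] :
    ∃ (V : Type) (_ : Fintype V) (G : SimpleGraph V) (ω : Sym2 V → ℕ),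
      VeryWellCovered G ∧ (∀ e, 0 < ω e) ∧
      IsCohenMacaulayRing (MvPolynomial V K ⧸ weightedEdgeIdeal K G ω ^ 2) ∧
      IsUnmixed (weightedEdgeIdeal K G ω ^ 4) ∧
      ¬ IsCohenMacaulayRing (MvPolynomial V K ⧸ weightedEdgeIdeal K G ω ^ 4) := by
  refine ⟨Fin 6, inferInstance, GG, ww, vwc, ww_pos, ?_, ?_, ?_⟩
  · rw [I2_eq]; exact cm2 K
  · rw [I4_eq]; exact unmixed4 K
  · rw [I4_eq]; exact not_cm4 K

end Pool.Agent.Results.MP_23c7c4_al.SquareCMUnmixedNotCM
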